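import Mathlib
import Pool.Agent.R175.Hexa.Pairs
import Pool.Agent.Results.MP_ef5fdc_co.AnisohedralHexagon

/-!
# A two-component prototile with a pseudo-idiomeric tiling but no idiomeric tiling

Let `P` be an anisohedral disk that has a tiling with half-turns as symmetries (here: the non-convex hexagon of
`MP_ef5fdc_co`, with its tiling by pinwheels of four copies, whose centres form a lattice).  The prototile is the
union of `P` and its image under a far half-turn of this tiling, chosen so that the pairs of this shape exist for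
both classes of tiles.  Pairing the tiles accordingly gives a tiling in which each tile has a half-turn that
exchanges its two components.

In an idiomeric tiling the components form an isohedral tiling by copies of `P`, and there is none.
-/

set_option autoImplicit false

namespace Pool.Agent.Results.MP_ad45c3_co.FarPairs

open Set Complex ComplexConjugate Pool.Agent.R175.Hexa

/-- A closed topological disk in the plane. -/
def IsDisk (C : Set ℂ) : Prop := IsClosed C ∧ Nonempty (C ≃ₜ Metric.closedBall (0 : ℂ) 1)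

/-- A tiling of the plane: a countable family of closed sets whose union is the plane and whose interiors are
pairwise disjoint. -/
structure IsTiling (𝒯 : Set (Set ℂ)) : Prop where
  countable : 𝒯.Countable
  closed : ∀ T ∈ 𝒯, IsClosed T
  cover : ⋃₀ 𝒯 = univ
  disjoint : ∀ S ∈ 𝒯, ∀ T ∈ 𝒯, S ≠ T → Disjoint (interior S) (interior T)

/-- `𝒯` is a monohedral tiling with prototile `T₀`: each tile is congruent to `T₀` (reflections allowed). -/
def IsMonohedral (𝒯 : Set (Set ℂ)) (T₀ : Set ℂ) : Prop := IsTiling 𝒯 ∧ ∀ T ∈ 𝒯, ∃ g : ℂ ≃ᵢ ℂ, T = g '' T₀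

/-- The isometry `g` is a symmetry of `𝒯`: it maps `𝒯` onto itself. -/
def IsSymmetry (𝒯 : Set (Set ℂ)) (g : ℂ ≃ᵢ ℂ) : Prop := (fun T => g '' T) '' 𝒯 = 𝒯

/-- `𝒯` is isohedral: its symmetries act transitively on the tiles. -/
def IsIsohedral (𝒯 : Set (Set ℂ)) : Prop := ∀ S ∈ 𝒯, ∀ T ∈ 𝒯, ∃ g : ℂ ≃ᵢ ℂ, IsSymmetry 𝒯 g ∧ g '' S = T

/-- `C` is a connected component of `T`. -/
def IsComponent (C T : Set ℂ) : Prop := ∃ x ∈ T, C = connectedComponentIn T x

/-- For each tile `T`, the symmetries of `𝒯` that map `T` onto itself act transitively on the components of `T`. -/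
def InducedTransitive (𝒯 : Set (Set ℂ)) : Prop :=
  ∀ T ∈ 𝒯, ∀ C D, IsComponent C T → IsComponent D T → ∃ g : ℂ ≃ᵢ ℂ, IsSymmetry 𝒯 g ∧ g '' T = T ∧ g '' C = D

/-- `𝒯` is idiomeric. -/
def IsIdiomeric (𝒯 : Set (Set ℂ)) : Prop := IsIsohedral 𝒯 ∧ InducedTransitive 𝒯

/-- `𝒯` is pseudo-idiomeric. -/
def IsPseudoIdiomeric (𝒯 : Set (Set ℂ)) : Prop := InducedTransitive 𝒯 ∧ ¬ IsIsohedral 𝒯

/-! ### Components -/

theorem comp_union {C D : Set ℂ} (hC : IsClosed C) (hD : IsClosed D) (hCc : IsPreconnected C) (hdis : Disjoint C D)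
    {x : ℂ} (hx : x ∈ C) : connectedComponentIn (C ∪ D) x = C := by
  have hxs : x ∈ C ∪ D := Or.inl hx
  apply Subset.antisymm
  · have hp : IsPreconnected (connectedComponentIn (C ∪ D) x) := isPreconnected_connectedComponentIn
    have h1 := isPreconnected_iff_subset_of_disjoint_closed.1 hp C D hC hD (connectedComponentIn_subset _ _) (by
      rw [Set.disjoint_iff_inter_eq_empty.1 hdis, inter_empty])
    rcases h1 with h1 | h1
    · exact h1
    · exfalso
      exact Set.disjoint_left.1 hdis hx (h1 (mem_connectedComponentIn hxs))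
  · exact hCc.subset_connectedComponentIn hx subset_union_left

theorem component_iff {C D : Set ℂ} (hC : IsClosed C) (hD : IsClosed D) (hCc : IsPreconnected C)
    (hDc : IsPreconnected D) (hCn : C.Nonempty) (hDn : D.Nonempty) (hdis : Disjoint C D) (E : Set ℂ) :
    IsComponent E (C ∪ D) ↔ E = C ∨ E = D := by
  constructor
  · rintro ⟨x, hx | hx, rfl⟩
    · left; exact comp_union hC hD hCc hdis hx
    · right; rw [union_comm]; exact comp_union hD hC hDc hdis.symm hx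
  · rintro (rfl | rfl)
    · obtain ⟨x, hx⟩ := hCn
      exact ⟨x, Or.inl hx, (comp_union hC hD hCc hdis hx).symm⟩
    · obtain ⟨x, hx⟩ := hDn
      refine ⟨x, Or.inr hx, ?_⟩
      rw [union_comm]
      exact (comp_union hD hC hDc hdis.symm hx).symm

theorem component_image {C T : Set ℂ} (g : ℂ ≃ᵢ ℂ) (h : IsComponent C T) : IsComponent (g '' C) (g '' T) := by
  obtain ⟨x, hx, rfl⟩ := h
  exact ⟨g x, mem_image_of_mem g hx, g.toHomeomorph.image_connectedComponentIn hx⟩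

theorem P_pre : IsPreconnected P := by
  have := Pool.Agent.R175.Disk.IsDisk.diff_finite P_disk (F := ∅) Set.finite_empty
  rwa [Set.sdiff_empty] at this

theorem P_ne : P.Nonempty := by
  obtain ⟨-, ⟨e⟩⟩ := P_disk
  exact ⟨_, (e.symm ⟨0, by simp⟩).2⟩

/-- A congruent copy of `P`. -/
def Copy (C : Set ℂ) : Prop := ∃ g : ℂ ≃ᵢ ℂ, C = g '' P

theorem Copy.closed {C : Set ℂ} (h : Copy C) : IsClosed C := by
  obtain ⟨g, rfl⟩ := h; exact tile_closed g

theorem Copy.pre {C : Set ℂ} (h : Copy C) : IsPreconnected C := by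
  obtain ⟨g, rfl⟩ := h; exact P_pre.image g g.continuous.continuousOn

theorem Copy.ne {C : Set ℂ} (h : Copy C) : C.Nonempty := by
  obtain ⟨g, rfl⟩ := h; exact P_ne.image g

theorem Copy.disk {C : Set ℂ} (h : Copy C) : IsDisk C := by
  obtain ⟨g, rfl⟩ := h
  obtain ⟨h1, ⟨e⟩⟩ := P_disk
  exact ⟨tile_closed g, ⟨(g.toHomeomorph.image P).symm.trans e⟩⟩

theorem Copy.image {C : Set ℂ} (h : Copy C) (g : ℂ ≃ᵢ ℂ) : Copy (g '' C) := by
  obtain ⟨k, rfl⟩ := h
  refine ⟨g * k, ?_⟩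
  rw [image_image]; rfl

theorem copy_comp {C D : Set ℂ} (hC : Copy C) (hD : Copy D) (hdis : Disjoint C D) (E : Set ℂ) :
    IsComponent E (C ∪ D) ↔ E = C ∨ E = D :=
  component_iff hC.closed hD.closed hC.pre hD.pre hC.ne hD.ne hdis E

/-! ### No idiomeric tiling -/

theorem no_idiomeric {C₁ C₂ : Set ℂ} (h1 : Copy C₁) (h2 : Copy C₂) (hd : Disjoint C₁ C₂) {𝒯 : Set (Set ℂ)}
    (hm : IsMonohedral 𝒯 (C₁ ∪ C₂)) (hi : IsIdiomeric 𝒯) : False := by
  obtain ⟨hT, hcong⟩ := hm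
  have parts : ∀ T ∈ 𝒯, ∃ C D, Copy C ∧ Copy D ∧ Disjoint C D ∧ T = C ∪ D := by
    intro T hTm
    obtain ⟨g, rfl⟩ := hcong T hTm
    exact ⟨g '' C₁, g '' C₂, h1.image g, h2.image g, (disjoint_image_iff g.injective).2 hd, image_union _ _ _⟩
  let 𝒞 : Set (Set ℂ) := {E | ∃ T ∈ 𝒯, IsComponent E T}
  have hcopy : ∀ E ∈ 𝒞, Copy E := by
    rintro E ⟨T, hTm, hE⟩
    obtain ⟨C, D, hC, hD, hdis, rfl⟩ := parts T hTm
    rcases (copy_comp hC hD hdis E).1 hE with rfl | rfl
    · exact hC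
    · exact hD
  have hsub : ∀ E T, IsComponent E T → E ⊆ T := by
    rintro E T ⟨x, hx, rfl⟩
    exact connectedComponentIn_subset _ _
  have hsym : ∀ g, IsSymmetry 𝒯 g → IsSymmetry 𝒞 g := by
    intro g hg
    change (fun T => g '' T) '' 𝒞 = 𝒞
    have hg' : (fun T => g '' T) '' 𝒯 = 𝒯 := hg
    ext E
    constructor
    · rintro ⟨F, ⟨T, hTm, hF⟩, rfl⟩
      refine ⟨g '' T, ?_, component_image g hF⟩
      rw [← hg']
      exact ⟨T, hTm, rfl⟩
    · rintro ⟨T, hTm, hE⟩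
      rw [← hg'] at hTm
      obtain ⟨S, hS, rfl⟩ := hTm
      have h3 := component_image (g⁻¹ : ℂ ≃ᵢ ℂ) hE
      change IsComponent _ ((g⁻¹ : ℂ ≃ᵢ ℂ) '' (g '' S)) at h3
      rw [Pool.Agent.Results.MP_ef5fdc_co.AnisohedralHexagon.img_inv] at h3
      exact ⟨_, ⟨S, hS, h3⟩, Pool.Agent.Results.MP_ef5fdc_co.AnisohedralHexagon.img_inv' g E⟩
  refine Pool.Agent.Results.MP_ef5fdc_co.AnisohedralHexagon.no_isohedral 𝒞 ⟨⟨?_, ?_, ?_, ?_⟩, ?_⟩ ?_
  · have : 𝒞 = ⋃ T ∈ 𝒯, {E | IsComponent E T} := by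
      ext E
      simp only [mem_iUnion, mem_ofPred_eq, exists_prop]
      rfl
    rw [this]
    apply hT.countable.biUnion
    intro T hTm
    obtain ⟨C, D, hC, hD, hdis, rfl⟩ := parts T hTm
    have : {E | IsComponent E (C ∪ D)} ⊆ {C, D} := fun E hE => (copy_comp hC hD hdis E).1 hE
    exact (Set.toFinite _).countable.mono this
  · intro E hE
    exact (hcopy E hE).disk
  · apply eq_univ_of_forall
    intro z
    have hz : z ∈ ⋃₀ 𝒯 := by rw [hT.cover]; trivial
    obtain ⟨T, hTm, hzT⟩ := hz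
    exact ⟨_, ⟨T, hTm, z, hzT, rfl⟩, mem_connectedComponentIn hzT⟩
  · rintro E ⟨S, hS, hE⟩ F ⟨T, hTm, hF⟩ hne
    by_cases hST : S = T
    · subst hST
      obtain ⟨C, D, hC, hD, hdis, rfl⟩ := parts S hS
      have hCD := hdis.mono interior_subset interior_subset
      rcases (copy_comp hC hD hdis E).1 hE with rfl | rfl <;> rcases (copy_comp hC hD hdis F).1 hF with rfl | rfl
      · exact absurd rfl hne
      · exact hCD
      · exact hCD.symm
      · exact absurd rfl hne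
    · exact (hT.disjoint S hS T hTm hST).mono (interior_mono (hsub _ _ hE)) (interior_mono (hsub _ _ hF))
  · exact hcopy
  · rintro E ⟨S, hS, hE⟩ F ⟨T, hTm, hF⟩
    obtain ⟨σ, hσ, hσT⟩ := hi.1 S hS T hTm
    have h3 := component_image σ hE
    rw [hσT] at h3
    obtain ⟨τ, hτ, -, hτF⟩ := hi.2 T hTm _ _ h3 hF
    refine ⟨τ * σ, hsym _ ?_, ?_⟩
    · change (fun T => (τ * σ) '' T) '' 𝒯 = 𝒯
      have e : (fun T : Set ℂ => (τ * σ) '' T) = (fun T => τ '' T) ∘ (fun T => σ '' T) := by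
        funext T; exact Pool.Agent.Results.MP_ef5fdc_co.AnisohedralHexagon.img_mul' τ σ T
      rw [e, image_comp]
      have hσ' : (fun T => σ '' T) '' 𝒯 = 𝒯 := hσ
      have hτ' : (fun T => τ '' T) '' 𝒯 = 𝒯 := hτ
      rw [hσ', hτ']
    · rw [Pool.Agent.Results.MP_ef5fdc_co.AnisohedralHexagon.img_mul', hτF]

/-! ### The tiling -/

theorem one_symmetry (𝒯 : Set (Set ℂ)) : IsSymmetry 𝒯 1 := by
  change (fun T => (1 : ℂ ≃ᵢ ℂ) '' T) '' 𝒯 = 𝒯
  have e : (fun T : Set ℂ => (1 : ℂ ≃ᵢ ℂ) '' T) = id := by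
    funext T; ext z; simp
  rw [e, image_id]

theorem one_image (A : Set ℂ) : (1 : ℂ ≃ᵢ ℂ) '' A = A := by
  ext z; simp

theorem pairs_tiling : IsTiling pairs := by
  refine ⟨pairs_countable, ?_, pairs_cover, fun S hS T hT hne => pairs_disjoint hS hT hne⟩
  rintro T ⟨a, b, -, rfl | rfl⟩
  · exact (Copy.closed (Tl_iso 0 a b)).union (Copy.closed (Tl_iso 2 (a + 52) b))
  · exact (Copy.closed (Tl_iso 1 a b)).union (Copy.closed (Tl_iso 3 a (b + 52)))

theorem pairs_mono : IsMonohedral pairs (Tl 0 0 0 ∪ Tl 2 52 0) := by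
  refine ⟨pairs_tiling, ?_⟩
  have e : Tl 0 0 0 ∪ Tl 2 52 0 = PA 0 0 := by unfold PA; norm_num
  rw [e]
  rintro T ⟨a, b, -, rfl | rfl⟩
  · exact PA_cong a b
  · exact PB_cong a b

theorem pairs_induced : InducedTransitive pairs := by
  rintro T ⟨a, b, hab, rfl | rfl⟩ C D hC hD
  · have hdis := PA_parts_disjoint a b
    have hc := copy_comp (Tl_iso 0 a b) (Tl_iso 2 (a + 52) b) hdis
    obtain ⟨p, q, hpq, s1, s2⟩ := swap_PA hab
    have hfix : ht p q '' PA a b = PA a b := by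
      unfold PA; rw [image_union, s1, s2, union_comm]
    rcases (hc C).1 hC with rfl | rfl <;> rcases (hc D).1 hD with rfl | rfl
    · exact ⟨1, one_symmetry _, one_image _, one_image _⟩
    · exact ⟨ht p q, ht_sym hpq, hfix, s1⟩
    · exact ⟨ht p q, ht_sym hpq, hfix, s2⟩
    · exact ⟨1, one_symmetry _, one_image _, one_image _⟩
  · have hdis := PB_parts_disjoint a b
    have hc := copy_comp (Tl_iso 1 a b) (Tl_iso 3 a (b + 52)) hdis
    obtain ⟨p, q, hpq, s1, s2⟩ := swap_PB hab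
    have hfix : ht p q '' PB a b = PB a b := by
      unfold PB; rw [image_union, s1, s2, union_comm]
    rcases (hc C).1 hC with rfl | rfl <;> rcases (hc D).1 hD with rfl | rfl
    · exact ⟨1, one_symmetry _, one_image _, one_image _⟩
    · exact ⟨ht p q, ht_sym hpq, hfix, s1⟩
    · exact ⟨ht p q, ht_sym hpq, hfix, s2⟩
    · exact ⟨1, one_symmetry _, one_image _, one_image _⟩

/-- There is a prototile with exactly two components, both closed topological disks, that admits a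
pseudo-idiomeric tiling of the plane but no idiomeric tiling. -/
theorem result : ∃ C₁ C₂ : Set ℂ, IsDisk C₁ ∧ IsDisk C₂ ∧ Disjoint C₁ C₂ ∧
    (∃ 𝒯, IsMonohedral 𝒯 (C₁ ∪ C₂) ∧ IsPseudoIdiomeric 𝒯) ∧
    ¬ ∃ 𝒯, IsMonohedral 𝒯 (C₁ ∪ C₂) ∧ IsIdiomeric 𝒯 := by
  have hdis : Disjoint (Tl 0 0 0) (Tl 2 52 0) := by
    have := PA_parts_disjoint 0 0
    rwa [zero_add] at this
  have hno : ∀ 𝒯, IsMonohedral 𝒯 (Tl 0 0 0 ∪ Tl 2 52 0) → ¬ IsIdiomeric 𝒯 := fun 𝒯 hm hi =>
    no_idiomeric (Tl_iso 0 0 0) (Tl_iso 2 52 0) hdis hm hi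
  refine ⟨Tl 0 0 0, Tl 2 52 0, Copy.disk (Tl_iso 0 0 0), Copy.disk (Tl_iso 2 52 0), hdis, ?_, ?_⟩
  · exact ⟨pairs, pairs_mono, pairs_induced, fun hiso => hno _ pairs_mono ⟨hiso, pairs_induced⟩⟩
  · rintro ⟨𝒯, hm, hi⟩
    exact hno 𝒯 hm hi

end Pool.Agent.Results.MP_ad45c3_co.FarPairs
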